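import Pool.Agent.TH882.Y4
import Pool.Agent.TH882.T2

/-!
Primes `p_{kn}` with index divisible by a given `n` for which `p_{kn} + h` is prime, for almost all even
`h`, and the corresponding statement for several shifts.
-/

set_option autoImplicit false

open Finset Filter Topology

namespace Pool.Agent.Results.MP_be93de_nt.AlmostAllGaps

/-- The `m`-th prime: `p 1 = 2`, `p 2 = 3`, `p 3 = 5`, and so on. -/
noncomputable def p (m : ℕ) : ℕ := Nat.nth Nat.Prime (m - 1)

/-- For every prime `l` there is an integer `a` such that `l` divides none of the numbers `a` and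
`a + h_j`. -/
def Admissible {r : ℕ} (h : Fin r → ℕ) : Prop :=
  ∀ l : ℕ, l.Prime → ∃ a : ℤ, ¬ (l : ℤ) ∣ a * ∏ j, (a + h j)

/-- The integers `k ≥ 1` with `p_{kn} ≤ x` such that all the numbers `p_{kn} + h_j` are prime. -/
def good (n : ℕ) {r : ℕ} (h : Fin r → ℕ) (x : ℕ) : Set ℕ :=
  {k : ℕ | 1 ≤ k ∧ p (k * n) ≤ x ∧ ∀ j, (p (k * n) + h j).Prime}

open Classical in
/-- The admissible vectors `h` with `1 ≤ h_j ≤ K x` and with fewer than `c * x / (log x) ^ (r + 1)`
integers `k` as above. -/
noncomputable def exceptions (n r : ℕ) (c : ℝ) (K x : ℕ) : Finset (Fin r → ℕ) :=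
  (Fintype.piFinset (fun _ : Fin r => Icc 1 (K * x))).filter (fun h => Admissible h ∧
    ((good n h x).ncard : ℝ) < c * (x / Real.log x ^ (r + 1)))

/-- the multiples of `n` -/
def mult (n : ℕ) : Set ℕ := {k : ℕ | n ∣ k}

lemma syn_mult (n : ℕ) (hn : 1 ≤ n) : Pool.Agent.TH882.HY.Syn n (mult n) := by
  intro j _
  set i := (n * j - j) % n with hi
  have h1 : j ≤ n * j := Nat.le_mul_of_pos_left j hn
  refine ⟨i, Nat.mod_lt _ hn, ?_⟩
  have h2 : j + i ≡ 0 [MOD n] := by
    have h3 : i ≡ n * j - j [MOD n] := Nat.mod_modEq _ _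
    have h4 : j + i ≡ j + (n * j - j) [MOD n] := h3.add_left j
    have h5 : j + (n * j - j) = n * j := by omega
    rw [h5] at h4
    exact h4.trans ((Nat.modEq_zero_iff_dvd).2 (dvd_mul_right n j))
  exact (Nat.modEq_zero_iff_dvd).1 h2

lemma p_pi (q : ℕ) (hq : q.Prime) : p (Nat.primeCounting q) = q := by
  unfold p Nat.primeCounting Nat.primeCounting'
  rw [Nat.count_succ, if_pos hq, Nat.add_sub_cancel]
  exact Nat.nth_count hq

lemma pi_pos (q : ℕ) (hq : q.Prime) : 1 ≤ Nat.primeCounting q := by
  unfold Nat.primeCounting Nat.primeCounting'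
  rw [Nat.count_succ, if_pos hq]
  omega

lemma good_finite (n : ℕ) (hn : 1 ≤ n) {r : ℕ} (h : Fin r → ℕ) (x : ℕ) : (good n h x).Finite := by
  apply (Finset.finite_toSet (Finset.range (x + 1))).subset
  rintro k ⟨h1, h2, -⟩
  rw [Finset.mem_coe, Finset.mem_range]
  unfold p at h2
  have e1 := Nat.add_two_le_nth_prime (k * n - 1)
  have e2 : k * 1 ≤ k * n := Nat.mul_le_mul_left k hn
  omega

/-- **Prime pairs and tuples whose first member has an index divisible by `n`.** Let `n ≥ 1`, `r` and
`K` be given. For every `κ > 0` there is `c > 0` such that for all large `x` and for all admissible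
vectors `(h_1, …, h_r)` of integers `1 ≤ h_j ≤ K x`, with at most `κ x ^ r` exceptions, there are at
least `c x / (log x) ^ (r + 1)` integers `k ≥ 1` with `p_{kn} ≤ x` such that all `p_{kn} + h_j` are
prime. For `r = 1` the admissible vectors are the even numbers `h`. -/
theorem result (n : ℕ) (hn : 1 ≤ n) :
    (∀ (r K : ℕ) (κ : ℝ), 0 < κ → ∃ c : ℝ, 0 < c ∧
      ∀ᶠ x : ℕ in atTop, ((exceptions n r c K x).card : ℝ) ≤ κ * (x : ℝ) ^ r) ∧
    ∀ h : Fin 1 → ℕ, Admissible h ↔ Even (h 0) := by
  classical
  constructor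
  · intro r K κ hκ
    obtain ⟨c, hc, x₀, h⟩ := Pool.Agent.TH882.TS.base
      (fun _ : Fin r => (Polynomial.X : Polynomial ℤ)) (fun _ => by simp) (fun _ => by simp)
      (Pool.Agent.TH882.HY.IS (mult n)) (Pool.Agent.TH882.HY.IS_most n hn (mult n) (syn_mult n hn))
      (fun _ q => n ∣ Nat.primeCounting q) 0 (by
        intro x _ b q hq
        unfold Pool.Agent.TH882.HY.IS at hq
        rw [mem_filter] at hq
        exact ⟨hq.2.1, hq.2.2⟩) K κ hκ
    refine ⟨c, hc, ?_⟩
    filter_upwards [eventually_ge_atTop x₀] with x hx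
    have h1 := h x hx
    have e0 : ∏ j : Fin r, (x : ℝ) ^ (Polynomial.X : Polynomial ℤ).natDegree = (x : ℝ) ^ r := by
      simp
    rw [e0] at h1
    refine le_trans ?_ h1
    apply Nat.cast_le.2
    apply card_le_card
    intro v hv
    unfold exceptions at hv
    rw [mem_filter, Fintype.mem_piFinset] at hv
    obtain ⟨hv1, hv2, hv3⟩ := hv
    rw [Pool.Agent.TH882.TS.mem_exc]
    refine ⟨?_, ?_, lt_of_le_of_lt ?_ hv3⟩
    · intro j
      simpa using hv1 j
    · intro l hl
      obtain ⟨a, ha⟩ := hv2 l hl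
      refine ⟨a, fun hd => ha (hd.mul_right _), fun j hd => ha ?_⟩
      rw [Polynomial.eval_X, add_comm] at hd
      exact (hd.trans (dvd_prod_of_mem (fun j => a + (v j : ℤ)) (mem_univ j))).mul_left _
    · apply Nat.cast_le.2
      set Q := Pool.Agent.TH882.TS.cnt (fun q => n ∣ Nat.primeCounting q)
        (fun _ : Fin r => (Polynomial.X : Polynomial ℤ)) v x with hQ
      have hQm : ∀ q ∈ Q, q ≤ x ∧ q.Prime ∧ n ∣ Nat.primeCounting q ∧ ∀ j, (q + v j).Prime := by
        intro q hq
        rw [hQ, Pool.Agent.TH882.TS.mem_cnt, mem_Icc] at hq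
        refine ⟨hq.1.2, hq.2.1, hq.2.2.1, fun j => ?_⟩
        have e1 := hq.2.2.2 j
        have e2 : ((v j : ℤ) + (Polynomial.X : Polynomial ℤ).eval (q : ℤ)).toNat = q + v j := by
          rw [Polynomial.eval_X]
          omega
        rw [e2] at e1
        exact e1
      have hinj : Set.InjOn (fun q => Nat.primeCounting q / n) (Q : Set ℕ) := by
        intro q hq q' hq' he
        simp only at he
        have g1 := hQm q hq
        have g2 := hQm q' hq'
        have e1 : Nat.primeCounting q = Nat.primeCounting q' := by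
          rw [← Nat.div_mul_cancel g1.2.2.1, ← Nat.div_mul_cancel g2.2.2.1, he]
        rw [← p_pi q g1.2.1, ← p_pi q' g2.2.1, e1]
      rw [← card_image_of_injOn hinj, ← Set.ncard_coe_finset]
      apply Set.ncard_le_ncard _ (good_finite n hn v x)
      intro k hk
      rw [mem_coe, mem_image] at hk
      obtain ⟨q, hq, rfl⟩ := hk
      obtain ⟨g1, g2, g3, g4⟩ := hQm q hq
      have e1 : Nat.primeCounting q / n * n = Nat.primeCounting q := Nat.div_mul_cancel g3
      have e2 := pi_pos q g2
      refine ⟨?_, ?_, ?_⟩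
      · apply Nat.div_pos (Nat.le_of_dvd (by omega) g3) hn
      · rw [e1, p_pi q g2]
        exact g1
      · intro j
        rw [e1, p_pi q g2]
        exact g4 j
  · intro h
    constructor
    · intro hA
      obtain ⟨a, ha⟩ := hA 2 Nat.prime_two
      rw [Fin.prod_univ_one] at ha
      by_contra hodd
      rw [Nat.not_even_iff_odd] at hodd
      apply ha
      obtain ⟨t, ht⟩ := hodd
      rcases Int.even_or_odd a with ⟨s, hs⟩ | ⟨s, hs⟩
      · refine ⟨s * (a + h 0), ?_⟩
        rw [hs]
        push_cast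
        ring
      · refine ⟨a * (s + t + 1), ?_⟩
        rw [hs, ht]
        push_cast
        ring
    · intro hE l hl
      by_cases h2 : l = 2
      · subst h2
        refine ⟨1, ?_⟩
        rw [Fin.prod_univ_one]
        obtain ⟨t, ht⟩ := hE
        intro hd
        rw [ht] at hd
        push_cast at hd
        omega
      · have hl3 : 3 ≤ l := by
          have := hl.two_le
          omega
        by_cases h3 : (l : ℤ) ∣ 1 + h 0
        · refine ⟨2, ?_⟩
          rw [Fin.prod_univ_one]
          intro hd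
          have hp : Prime (l : ℤ) := Nat.prime_iff_prime_int.1 hl
          rcases hp.dvd_or_dvd hd with h4 | h4
          · have := Int.le_of_dvd (by norm_num) h4
            omega
          · have h5 : (l : ℤ) ∣ 1 := by
              have h6 := dvd_sub h4 h3
              have h7 : (2 : ℤ) + h 0 - (1 + h 0) = 1 := by ring
              rwa [h7] at h6
            have := Int.le_of_dvd (by norm_num) h5
            omega
        · refine ⟨1, ?_⟩
          rw [Fin.prod_univ_one, one_mul]
          exact h3

end Pool.Agent.Results.MP_be93de_nt.AlmostAllGaps
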