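import Pool.Agent.TH402.FB.Rel

/-!
# The gaps after the primes `p_{kn}` contain almost all elements of a Bohr neighbourhood of zero
-/

set_option autoImplicit false

namespace Pool.Agent.Results.MP_be93de_nt.BohrGaps

open Filter

/-- the `m`-th prime, `m ≥ 1` -/
noncomputable def p (m : ℕ) : ℕ := Nat.nth Nat.Prime (m - 1)

/-- `d` is in the Bohr neighbourhood of zero with frequencies `Θ` and radius `ρ`: for every `θ` in `Θ` the
distance of `d * θ` to the nearest integer is less than `ρ` -/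
def InBohr (Θ : Finset ℝ) (ρ : ℝ) (d : ℕ) : Prop :=
  ∀ θ ∈ Θ, |(d : ℝ) * θ - round ((d : ℝ) * θ)| < ρ

/-- for every `η > 0` there are arbitrarily large `x` with at least `x ^ (1 - η)` integers `k ≥ 1` such that
`p_{kn} ≤ x`, `p_{kn} ≡ a (mod q)` and the next prime `p_{kn+1}` is `p_{kn} + d` -/
def Good (n q a d : ℕ) : Prop := ∀ η : ℝ, 0 < η → ∃ᶠ x : ℝ in atTop,
  x ^ (1 - η) ≤ ({k : ℕ | 1 ≤ k ∧ (p (k * n) : ℝ) ≤ x ∧ p (k * n) ≡ a [MOD q] ∧
    p (k * n + 1) = p (k * n) + d}.ncard : ℝ)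

/-- Let `n ≥ 1` and let `a` be coprime to `q ≥ 1`. There is a Bohr neighbourhood of zero, which has bounded
gaps, and almost all (in the sense of Banach density) elements `d` of it are `Good`. -/
theorem result (n q a : ℕ) (hn : 1 ≤ n) (hq : 0 < q) (ha : a.Coprime q) :
    ∃ (Θ : Finset ℝ) (ρ : ℝ), 0 < ρ ∧
    (∃ L : ℕ, ∀ u : ℕ, ∃ d : ℕ, u < d ∧ d ≤ u + L ∧ InBohr Θ ρ d) ∧
    ∀ ε : ℝ, 0 < ε → ∃ L₀ : ℕ, ∀ L : ℕ, L₀ ≤ L → ∀ u : ℕ,
      ({d : ℕ | u < d ∧ d ≤ u + L ∧ InBohr Θ ρ d ∧ ¬ Good n q a d}.ncard : ℝ) ≤ ε * L := by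
  classical
  have hR' : ∀ j : ℕ, ∃ i k, j ≤ i ∧ i < k ∧ k ≤ j + n ∧ (n ∣ i + 1 ∧ k = i + 1) := by
    intro j
    refine ⟨n * (j / n + 1) - 1, n * (j / n + 1), ?_, ?_, ?_, ?_, ?_⟩
    · have h1 := Nat.div_add_mod j n
      have h2 := Nat.mod_lt j (show 0 < n by omega)
      have h3 : n * (j / n + 1) = n * (j / n) + n := by ring
      omega
    · have h3 : n * (j / n + 1) = n * (j / n) + n := by ring
      omega
    · have h1 := Nat.div_add_mod j n
      have h3 : n * (j / n + 1) = n * (j / n) + n := by ring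
      omega
    · have h3 : n * (j / n + 1) = n * (j / n) + n := by ring
      have h4 : n * (j / n + 1) - 1 + 1 = n * (j / n + 1) := by omega
      rw [h4]
      exact dvd_mul_right _ _
    · have h3 : n * (j / n + 1) = n * (j / n) + n := by ring
      omega
  obtain ⟨M₁, hM, T, ρ₀, hρ₀, hnull⟩ :=
    Pool.Agent.TH402.FB.gapsR q a hq ha n (R := fun i k => n ∣ i + 1 ∧ k = i + 1) hR'
  obtain ⟨Θ, ρ, hρ, H⟩ := Pool.Agent.TH402.FB.transfer hM hq hρ₀ hnull
  refine ⟨Θ, ρ, hρ, Pool.Agent.TH402.FB.syn Θ ρ hρ, fun ε hε => ?_⟩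
  obtain ⟨L₀, h⟩ := H ε hε
  refine ⟨L₀, fun L hL u => le_trans ?_ (h L hL u)⟩
  rw [Nat.cast_le]
  refine Set.ncard_le_ncard ?_ ((Set.finite_le_nat (u + L)).subset fun d hd => hd.2.1)
  rintro d ⟨h1, h2, h3, h4⟩
  refine ⟨h1, h2, h3, ?_⟩
  rintro ⟨k, hk, rfl⟩
  apply h4
  intro η hη
  refine (Pool.Agent.TH402.FB.nthR hk η hη).mono fun x hx => hx.trans ?_
  rw [Nat.cast_le]
  refine Set.ncard_le_ncard_of_injOn (fun i => (i + 1) / n) ?_ ?_ ?_
  · rintro i ⟨h5, h6, j, h7, h8, ⟨⟨l, hl⟩, hj⟩, h9⟩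
    have hdiv : (i + 1) / n = l := by
      rw [hl]; exact Nat.mul_div_cancel_left l (by omega)
    have hln : l * n = i + 1 := by rw [hl, mul_comm]
    have hl1 : 1 ≤ l := by
      rcases Nat.eq_zero_or_pos l with h0 | h0
      · rw [h0, zero_mul] at hln
        omega
      · exact h0
    have e1 : p (l * n) = Nat.nth Nat.Prime i := by
      unfold p
      rw [hln, Nat.add_sub_cancel]
    have e2 : p (l * n + 1) = Nat.nth Nat.Prime j := by
      unfold p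
      rw [hln, hj, Nat.add_sub_cancel]
    refine ⟨by show 1 ≤ (i + 1) / n; rw [hdiv]; exact hl1, ?_, ?_, ?_⟩
    · show (p ((i + 1) / n * n) : ℝ) ≤ x
      rw [hdiv, e1]; exact h5
    · show p ((i + 1) / n * n) ≡ a [MOD q]
      rw [hdiv, e1]; exact h6
    · show p ((i + 1) / n * n + 1) = p ((i + 1) / n * n) + q * k
      rw [hdiv, e1, e2]; exact h9
  · rintro i ⟨_, _, _, _, _, ⟨⟨l, hl⟩, _⟩, _⟩ i' ⟨_, _, _, _, _, ⟨⟨l', hl'⟩, _⟩, _⟩ hii
    have hii' : (i + 1) / n = (i' + 1) / n := hii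
    rw [hl, hl', Nat.mul_div_cancel_left l (by omega), Nat.mul_div_cancel_left l' (by omega)] at hii'
    rw [← hii'] at hl'
    omega
  · apply (Set.finite_Iic ⌊x⌋₊).subset
    rintro k' ⟨h5, h6, -⟩
    rw [Set.mem_Iic]
    apply Nat.le_floor
    refine le_trans ?_ h6
    have h9 := Nat.add_two_le_nth_prime (k' * n - 1)
    have h10 : k' ≤ k' * n := Nat.le_mul_of_pos_right k' (by omega)
    unfold p
    exact_mod_cast (by omega : k' ≤ Nat.nth Nat.Prime (k' * n - 1))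

end Pool.Agent.Results.MP_be93de_nt.BohrGaps
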