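import Pool.Agent.TH882.X4

/-!
For every `n` there are many multiples `kn` of `n` for which `p_{kn} + 2` is almost prime.
-/

set_option autoImplicit false

open Filter Topology

namespace Pool.Agent.Results.MP_be93de_nt.MultiplesOfEveryN

/-- The `m`-th prime: `p 1 = 2`, `p 2 = 3`, `p 3 = 5`, and so on. -/
noncomputable def p (m : ℕ) : ℕ := Nat.nth Nat.Prime (m - 1)

/-- The integers `k ≥ 1` with `p_{kn+r} ≤ x` such that all the numbers `p_{kn+i} + 2`, `0 ≤ i ≤ r`,
have at most `R` prime factors, counted with multiplicity. -/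
def good (n r R x : ℕ) : Set ℕ :=
  {k : ℕ | 1 ≤ k ∧ p (k * n + r) ≤ x ∧
    ∀ i ≤ r, ArithmeticFunction.cardFactors (p (k * n + i) + 2) ≤ R}

/-- **Almost twin primes with index a multiple of `n`.** Let `n ≥ 1` and `r ≥ 0`. There are `R` and `D`
such that for all large `x` there are at least `x / (log x) ^ D` integers `k ≥ 1` with
`p_{kn+r} ≤ x` for which each of the `r + 1` numbers `p_{kn} + 2, p_{kn+1} + 2, …, p_{kn+r} + 2` has
at most `R` prime factors. -/
theorem result (n r : ℕ) (hn : 1 ≤ n) : ∃ R D : ℕ, ∀ᶠ x : ℕ in atTop,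
    (x : ℝ) / Real.log x ^ D ≤ ((good n r R x).ncard : ℝ) := by
  obtain ⟨R, D, x₀, h⟩ := Pool.Agent.TH882.HX.indices {2} (by
    intro l hl
    by_cases h3 : l = 2 ∨ l = 3
    · refine ⟨-1, ?_, ?_⟩
      · rcases h3 with rfl | rfl <;> norm_num
      · intro a ha
        rw [Finset.mem_singleton] at ha
        subst ha
        rcases h3 with rfl | rfl <;> norm_num
    · push Not at h3
      have h5 : 4 ≤ l := by
        have := hl.two_le
        omega
      refine ⟨1, ?_, ?_⟩
      · intro hd
        have := Int.le_of_dvd one_pos hd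
        omega
      · intro a ha hd
        rw [Finset.mem_singleton] at ha
        subst ha
        have := Int.le_of_dvd (by norm_num) hd
        omega) n r hn
  refine ⟨R, D, ?_⟩
  filter_upwards [eventually_ge_atTop x₀] with x hx
  refine (h x hx).trans ?_
  apply Nat.cast_le.2
  apply Set.ncard_le_ncard
  · rintro k ⟨h1, h2, h3⟩
    refine ⟨h1, h2, ?_⟩
    intro i hi
    have e1 := (h3 i hi 2 (Finset.mem_singleton_self _)).2
    have e2 : ((Nat.nth Nat.Prime (k * n + i - 1) : ℤ) + 2).toNat =
        Nat.nth Nat.Prime (k * n + i - 1) + 2 := by omega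
    rw [e2] at e1
    exact e1
  · apply (Finset.finite_toSet (Finset.range (x + 1))).subset
    rintro j ⟨h1, h2, -⟩
    rw [Finset.mem_coe, Finset.mem_range]
    unfold p at h2
    have e1 := Nat.add_two_le_nth_prime (j * n + r - 1)
    have e2 : j * 1 ≤ j * n := Nat.mul_le_mul_left j hn
    omega

end Pool.Agent.Results.MP_be93de_nt.MultiplesOfEveryN
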